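import Mathlib
import Pool.Agent.Lib.MP_5acbe8_al.Final

set_option autoImplicit false

namespace Pool.Agent.Results.MP_5acbe8_al.FiniteStrict

/-- The `n`-th order Arguesian law `D_n` in the lattice `α`. The families `a`, `b` are indexed by
the natural numbers, but only the values at `1, ..., n` occur. For `n = 1` the index set of the
meet and of the join is empty and the law holds in every lattice. -/
def ArguesianLaw (α : Type) [Lattice α] (n : ℕ) : Prop :=
  ∀ (a b : ℕ → α) (h : (Finset.Icc 1 (n - 1)).Nonempty),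
    a n ⊓ ((Finset.Icc 1 (n - 1)).inf' h (fun i => a i ⊔ b i) ⊔ b n) ≤
      a 1 ⊔ ((Finset.Icc 1 (n - 1)).sup' h
          (fun i => (a i ⊔ a (i + 1)) ⊓ (b i ⊔ b (i + 1))) ⊓ (b 1 ⊔ b n))

/-- `D_{n+1}` implies `D_n`: repeat the first pair. -/
theorem law_mono (α : Type) [Lattice α] (n : ℕ) (h : ArguesianLaw α (n + 1)) :
    ArguesianLaw α n := by
  intro a b hne
  obtain ⟨k, hk⟩ := hne
  have hk' := Finset.mem_Icc.1 hk
  have hn : 2 ≤ n := by omega
  have hne : (Finset.Icc 1 (n - 1)).Nonempty := ⟨k, hk⟩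
  have hne' : (Finset.Icc 1 (n + 1 - 1)).Nonempty := ⟨1, Finset.mem_Icc.2 ⟨le_rfl, by omega⟩⟩
  let a' : ℕ → α := fun i => if i = 1 then a 1 else a (i - 1)
  let b' : ℕ → α := fun i => if i = 1 then b 1 else b (i - 1)
  have ha1 : a' 1 = a 1 := by simp [a']
  have hb1 : b' 1 = b 1 := by simp [b']
  have ha : ∀ i, 1 ≤ i → a' (i + 1) = a i := by
    intro i hi
    simp only [a']
    rw [if_neg (by omega)]
    congr 1
  have hb : ∀ i, 1 ≤ i → b' (i + 1) = b i := by
    intro i hi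
    simp only [b']
    rw [if_neg (by omega)]
    congr 1
  have h1 := h a' b' hne'
  rw [ha n (by omega), hb n (by omega), ha1, hb1] at h1
  have h2 : (Finset.Icc 1 (n - 1)).inf' hne (fun i => a i ⊔ b i) ≤
      (Finset.Icc 1 (n + 1 - 1)).inf' hne' (fun i => a' i ⊔ b' i) := by
    apply Finset.le_inf'
    intro i hi
    rw [Finset.mem_Icc] at hi
    by_cases hi1 : i = 1
    · subst hi1
      rw [ha1, hb1]
      exact Finset.inf'_le (fun i => a i ⊔ b i) (Finset.mem_Icc.2 ⟨le_rfl, by omega⟩)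
    · obtain ⟨j, rfl⟩ : ∃ j, i = j + 1 := ⟨i - 1, by omega⟩
      rw [ha j (by omega), hb j (by omega)]
      exact Finset.inf'_le (fun i => a i ⊔ b i) (Finset.mem_Icc.2 ⟨by omega, by omega⟩)
  have h3 : (Finset.Icc 1 (n + 1 - 1)).sup' hne'
      (fun i => (a' i ⊔ a' (i + 1)) ⊓ (b' i ⊔ b' (i + 1))) ≤
      (Finset.Icc 1 (n - 1)).sup' hne
      (fun i => (a i ⊔ a (i + 1)) ⊓ (b i ⊔ b (i + 1))) := by
    apply Finset.sup'_le
    intro i hi
    rw [Finset.mem_Icc] at hi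
    by_cases hi1 : i = 1
    · subst hi1
      rw [ha1, hb1, ha 1 le_rfl, hb 1 le_rfl, sup_idem, sup_idem]
      have h4 : (a 1 ⊔ a (1 + 1)) ⊓ (b 1 ⊔ b (1 + 1)) ≤ (Finset.Icc 1 (n - 1)).sup' hne
          (fun i => (a i ⊔ a (i + 1)) ⊓ (b i ⊔ b (i + 1))) :=
        Finset.le_sup' (fun i => (a i ⊔ a (i + 1)) ⊓ (b i ⊔ b (i + 1)))
          (Finset.mem_Icc.2 ⟨le_rfl, by omega⟩)
      exact (inf_le_inf le_sup_left le_sup_left).trans h4
    · obtain ⟨j, rfl⟩ : ∃ j, i = j + 1 := ⟨i - 1, by omega⟩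
      rw [ha (j + 1) (by omega), hb (j + 1) (by omega), ha j (by omega), hb j (by omega)]
      exact Finset.le_sup' (fun i => (a i ⊔ a (i + 1)) ⊓ (b i ⊔ b (i + 1)))
        (Finset.mem_Icc.2 ⟨by omega, by omega⟩)
  refine (inf_le_inf le_rfl (sup_le_sup h2 le_rfl)).trans (h1.trans ?_)
  exact sup_le_sup le_rfl (inf_le_inf h3 le_rfl)

/-- Within finite lattices, `D_{n+1}` is strictly stronger than `D_n`, for every `n ≥ 1`. -/
theorem result : ∀ n : ℕ, 1 ≤ n →
    (∀ (α : Type) [Lattice α] [Finite α], ArguesianLaw α (n + 1) → ArguesianLaw α n) ∧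
    (∃ (α : Type) (inst : Lattice α), Finite α ∧ ArguesianLaw α n ∧ ¬ ArguesianLaw α (n + 1)) := by
  intro n hn
  refine ⟨fun α _ _ h => law_mono α n h, ?_⟩
  exact Pool.Agent.Lib.MP_5acbe8_al.strict n hn

end Pool.Agent.Results.MP_5acbe8_al.FiniteStrict
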